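import Pool.Agent.Q45.ML.Val
import Pool.Agent.Q45.ML.Lat

/-!
# Stark's conjecture over complex cubic fields and regularised products of norms of ideals

`k` a complex cubic field, `H/k` the narrow ray class field modulo `f`, `σ_𝔞` the Artin symbol, `e` the number of
roots of unity of `H`. The numbers `exp (-e ζ_f'(ρ, 0))`, conjecturally the absolute values `|u^ρ|_v` of a Stark
unit, are the limits with error `O(1/T)` of the regularised products

  `∏_{σ_𝔞 = ρ} N𝔞 ^ (e w_T(𝔞)) / (∏_{𝔞} N𝔞 ^ (e w_T(𝔞))) ^ (1/[H:k])`,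
  `w_T(𝔞) = e^{iγ log N𝔞/T} / Γ(1 + log N𝔞/T)`,

over all integral ideals prime to `f`. If units which satisfy the conditions 1 and 3 of the conjecture come
arbitrarily near to these products along one sequence `T_i → ∞`, then all of them from some index on are Stark
units, and the existence of such a sequence is equivalent to the conjecture for `(k, f, v)`.
-/

set_option autoImplicit false

namespace Pool.Agent.Results.MP_d9f52e_nt.RegularizedNormProducts

open Filter Topology Asymptotics NumberField Polynomial Pool.Agent.Q45.ML Pool.Agent.W189.ML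
  Pool.Agent.W189.LC Pool.Agent.W187.UR

section analytic

variable {c : ℕ → ℂ} {Z : ℂ → ℂ}

theorem summ_one (hZ : ∀ s : ℂ, 1 < s.re → LSeriesHasSum c s (Z s)) :
    LSeries.abscissaOfAbsConv c ≤ 1 := by
  refine LSeries.abscissaOfAbsConv_le_of_forall_lt_LSeriesSummable fun y hy => ?_
  exact (hZ y (by simpa using hy)).LSeriesSummable

theorem logmul_norm {f : ℕ → ℂ} {s : ℂ} (n : ℕ) :
    ‖LSeries.term (LSeries.logMul f) s n‖ =
      ‖f n * Real.log n‖ * Real.exp (-(s.re * Real.log n)) := by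
  rcases Nat.eq_zero_or_pos n with rfl | hn
  · rw [LSeries.term_zero, Nat.cast_zero, Real.log_zero, Complex.ofReal_zero, mul_zero, norm_zero, zero_mul]
  · rw [LSeries.term_of_ne_zero hn.ne']
    have h1 : (0 : ℝ) < n := by exact_mod_cast hn
    rw [LSeries.logMul, norm_div, ← Complex.natCast_log, mul_comm (f n)]
    rw [Complex.norm_natCast_cpow_of_pos hn, Real.rpow_def_of_pos h1, div_eq_mul_inv, ← Real.exp_neg]
    congr 2
    ring

theorem cont (hd : Differentiable ℂ Z)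
    (hZ : ∀ s : ℂ, 1 < s.re → LSeriesHasSum c s (Z s)) :
    ContC (fun n : ℕ => Real.log n) (fun n => c n * Real.log n) 0 1
      (fun s => Complex.exp (-deriv Z s)) := by
  have hab := summ_one hZ
  have hlt : ∀ s : ℂ, 1 < s.re → LSeries.abscissaOfAbsConv c < s.re := fun s hs =>
    lt_of_le_of_lt hab (by exact_mod_cast hs)
  have hder : Differentiable ℂ (deriv Z) := hd.deriv
  refine ⟨zero_lt_one, fun n => Real.log_natCast_nonneg n, fun s hs => ?_, fun x _ _ => ?_, fun s hs => ?_⟩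
  · have h1 := (LSeriesSummable_logMul_of_lt_re (hlt (s : ℂ) (by simpa using hs))).norm
    refine h1.congr fun n => ?_
    rw [logmul_norm]
    simp
  · have h1 : AnalyticAt ℂ (fun s => Complex.exp (-deriv Z s)) (x : ℂ) := by
      have := hder.analyticAt (x : ℂ)
      fun_prop
    exact h1.meromorphicAt
  · have h1 : Z =ᶠ[𝓝 s] LSeries c := by
      filter_upwards [(isOpen_lt continuous_const Complex.continuous_re).mem_nhds hs] with z hz
      exact (hZ z hz).LSeries_eq.symm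
    show Complex.exp (-deriv Z s) = _
    rw [h1.deriv_eq, LSeries_deriv (hlt s hs), neg_neg]
    congr 1
    unfold LSeries
    refine tsum_congr fun n => ?_
    rcases Nat.eq_zero_or_pos n with rfl | hn
    · simp
    · rw [LSeries.term_of_ne_zero hn.ne', LSeries.logMul, div_eq_mul_inv, ← Complex.cpow_neg,
        Complex.cpow_def_of_ne_zero (by exact_mod_cast hn.ne'), Complex.natCast_log]
      rw [mul_comm (Complex.log _) (c n)]
      congr 2
      ring

/-- the factor `w_T(n) = e^{iγ log n/T} / Γ(1 + log n/T)` -/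
noncomputable def w (γ T : ℝ) (n : ℕ) : ℂ :=
  Complex.exp ((γ * (Real.log n / T) : ℝ) * Complex.I) / (Real.Gamma (1 + Real.log n / T) : ℂ)

theorem summable_w (hd : Differentiable ℂ Z)
    (hZ : ∀ s : ℂ, 1 < s.re → LSeriesHasSum c s (Z s)) (γ : ℝ) {T : ℝ} (hT : 0 < T) :
    Summable fun n => ‖c n * Real.log n * w γ T n‖ := by
  have h1 := (cont hd hZ).sum 2 (by norm_num)
  refine Summable.of_nonneg_of_le (fun _ => norm_nonneg _) (fun n => ?_)
    (h1.mul_left (Real.exp (Real.exp (2 * T)) + 1))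
  have h0 : 0 ≤ Real.log n := Real.log_natCast_nonneg n
  have h2 : om (Real.log n / T) ≤
      (Real.exp (Real.exp (2 * T)) + 1) * Real.exp (-(2 * T * (Real.log n / T))) :=
    om_le (by positivity) (div_nonneg h0 hT.le)
  have h3 : 2 * T * (Real.log n / T) = 2 * Real.log n := by field_simp
  rw [h3] at h2
  have h5 : 0 < 1 + Real.log n / T := by
    have := div_nonneg h0 hT.le
    linarith
  have h6 : ‖c n * Real.log n * w γ T n‖ = ‖c n * Real.log n‖ * om (Real.log n / T) := by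
    unfold w om
    rw [norm_mul, norm_div, Complex.norm_exp_ofReal_mul_I, Complex.norm_real,
      Real.norm_eq_abs, abs_of_pos (Real.Gamma_pos_of_pos h5), one_div]
  rw [h6]
  calc _ ≤ ‖c n * Real.log n‖ * ((Real.exp (Real.exp (2 * T)) + 1) *
        Real.exp (-(2 * Real.log n))) := mul_le_mul_of_nonneg_left h2 (norm_nonneg _)
    _ = _ := by ring

theorem rate0 (hd : Differentiable ℂ Z)
    (hZ : ∀ s : ℂ, 1 < s.re → LSeriesHasSum c s (Z s)) {γ : ℝ} (hγ : Real.pi / 2 < γ) :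
    (fun T : ℝ => Complex.exp (∑' n, c n * Real.log n * w γ T n) - Complex.exp (-deriv Z 0)) =O[atTop]
      (fun T : ℝ => 1 / T) := by
  have hC := cont hd hZ
  obtain ⟨n, r, h1, h2, h3⟩ := lawC hC hγ
  have hA : AnalyticAt ℂ (fun s => Complex.exp (-deriv Z s)) ((0 : ℝ) : ℂ) := by
    have := hd.deriv.analyticAt ((0 : ℝ) : ℂ)
    fun_prop
  have h4 := value_rate hA h1 h2 h3
  rw [Complex.ofReal_zero] at h4
  refine h4.congr (fun T => ?_) fun _ => rfl
  congr 1
  unfold rotC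
  congr 1
  refine tsum_congr fun n => ?_
  unfold w
  simp

/-- real coefficients: the derivative at `0` is real -/
theorem deriv_real (hc : ∀ n, (starRingEnd ℂ) (c n) = c n) (hd : Differentiable ℂ Z)
    (hZ : ∀ s : ℂ, 1 < s.re → LSeriesHasSum c s (Z s)) : (deriv Z 0).im = 0 := by
  have h1 : ∀ z : ℂ, 1 < z.re → (starRingEnd ℂ) (Z ((starRingEnd ℂ) z)) = Z z := by
    intro z hz
    have h2 := hZ ((starRingEnd ℂ) z) (by simpa using hz)
    have h3 := h2.map (starRingEnd ℂ) Complex.continuous_conj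
    refine HasSum.unique h3 ?_
    have h4 := hZ z hz
    unfold LSeriesHasSum at h4
    convert h4 using 1
    ext n
    rcases Nat.eq_zero_or_pos n with rfl | hn
    · simp
    · simp only [Function.comp_apply, LSeries.term_of_ne_zero hn.ne', map_div₀, hc]
      rw [Complex.cpow_conj _ _ (by rw [Complex.natCast_arg]; exact Real.pi_ne_zero.symm),
        Complex.conj_natCast, Complex.conj_conj]
  have hcd : Differentiable ℂ ((starRingEnd ℂ) ∘ Z ∘ (starRingEnd ℂ)) := fun z =>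
    differentiableAt_conj_conj_iff.mpr (hd _)
  have heq : ((starRingEnd ℂ) ∘ Z ∘ (starRingEnd ℂ)) = Z := by
    have han : AnalyticOnNhd ℂ Z Set.univ := fun z _ => hd.analyticAt z
    have hcan : AnalyticOnNhd ℂ ((starRingEnd ℂ) ∘ Z ∘ (starRingEnd ℂ)) Set.univ :=
      fun z _ => hcd.analyticAt z
    have := hcan.eqOn_of_preconnected_of_eventuallyEq han isPreconnected_univ
      (Set.mem_univ (2 : ℂ)) (Filter.eventuallyEq_of_mem
        ((isOpen_lt continuous_const Complex.continuous_re).mem_nhds (by norm_num)) h1)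
    funext z
    exact this (Set.mem_univ z)
  have h5 := congrArg (fun g : ℂ → ℂ => deriv g 0) heq
  simp only [deriv_conj_conj] at h5
  simp only [Function.comp_apply, map_zero] at h5
  exact Complex.conj_eq_iff_im.1 h5

end analytic

section

variable {k H : Type} [Field k] [NumberField k] [Field H] [NumberField H] [Algebra k H]

/-- the number of the integral ideals `I` of `k` prime to `f`, of norm `n` and with symbol `art I = ρ` -/
noncomputable def cnt (f : Ideal (𝓞 k)) (art : Ideal (𝓞 k) → (H ≃ₐ[k] H)) (ρ : H ≃ₐ[k] H) (n : ℕ) : ℕ :=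
  Nat.card {I : Ideal (𝓞 k) // I ⊔ f = ⊤ ∧ art I = ρ ∧ Ideal.absNorm I = n}

/-- this number minus its average over `ρ` -/
noncomputable def coeff [Fintype (H ≃ₐ[k] H)] (f : Ideal (𝓞 k)) (art : Ideal (𝓞 k) → (H ≃ₐ[k] H))
    (ρ : H ≃ₐ[k] H) (n : ℕ) : ℂ :=
  (cnt f art ρ n : ℂ) - 1 / Fintype.card (H ≃ₐ[k] H) * ∑ ρ' : H ≃ₐ[k] H, (cnt f art ρ' n : ℂ)

/-- `e coeff(n) log n w_T(n)` -/
noncomputable def term [Fintype (H ≃ₐ[k] H)] (f : Ideal (𝓞 k)) (art : Ideal (𝓞 k) → (H ≃ₐ[k] H)) (e : ℕ)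
    (γ T : ℝ) (ρ : H ≃ₐ[k] H) (n : ℕ) : ℂ :=
  (e * coeff f art ρ n) * Real.log n * w γ T n

/-- the regularised product `∏_n n ^ (e coeff(n) w_T(n))` -/
noncomputable def product [Fintype (H ≃ₐ[k] H)] (f : Ideal (𝓞 k)) (art : Ideal (𝓞 k) → (H ≃ₐ[k] H)) (e : ℕ)
    (γ T : ℝ) (ρ : H ≃ₐ[k] H) : ℂ :=
  Complex.exp (∑' n, term f art e γ T ρ n)

/-- condition 1 for a unit: every embedding above a real embedding of `k` maps `u` to the unit circle -/
def UnitCircle (k : Type) {H : Type} [Field k] [NumberField k] [Field H] [NumberField H] [Algebra k H]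
    (u : (𝓞 H)ˣ) : Prop :=
  ∀ τ : H →+* ℂ, (∀ x : k, (τ (algebraMap k H x)).im = 0) → ‖τ (u : H)‖ = 1

/-- condition 3: `H(u^{1/e})` is an abelian extension of `k` -/
def AbelianRoot (k : Type) {H : Type} [Field k] [NumberField k] [Field H] [NumberField H] [Algebra k H]
    (e : ℕ) (u : (𝓞 H)ˣ) : Prop :=
  IsAbelianGalois k (X ^ e - C (u : H)).SplittingField

/-- conditions 1 and 3 -/
def Candidate (k : Type) {H : Type} [Field k] [NumberField k] [Field H] [NumberField H] [Algebra k H]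
    (e : ℕ) (u : (𝓞 H)ˣ) : Prop :=
  UnitCircle k u ∧ AbelianRoot k e u

/-- `|u^ρ|_v`, the place `v` being given by the embedding `σ` -/
noncomputable def absV (σ : H →+* ℂ) (ρ : H ≃ₐ[k] H) (u : (𝓞 H)ˣ) : ℝ := ‖σ (ρ (u : H))‖ ^ 2

/-- conditions 1, 2 and 3 -/
def IsStark (σ : H →+* ℂ) (e : ℕ) (ζ : (H ≃ₐ[k] H) → ℂ → ℂ) (u : (𝓞 H)ˣ) : Prop :=
  (∀ ρ : H ≃ₐ[k] H, deriv (ζ ρ) 0 = ((-(1 / e) * Real.log (absV σ ρ u) : ℝ) : ℂ)) ∧ Candidate k e u

omit [NumberField k] [NumberField H] in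
theorem absV_pos (σ : H →+* ℂ) (ρ : H ≃ₐ[k] H) (u : (𝓞 H)ˣ) : 0 < absV σ ρ u := by
  have hne : σ (ρ (u : H)) ≠ 0 := by
    rw [Ne, map_eq_zero, map_eq_zero]
    exact NumberField.Units.coe_ne_zero u
  unfold absV
  positivity

/-- the embeddings of a complex cubic field -/
theorem embeddings (hk : Module.finrank ℚ k = 3) {σ₀ : k →+* ℂ} (hσ : ∃ x : k, (σ₀ x).im ≠ 0)
    (τ : k →+* ℂ) : (∀ x, (τ x).im = 0) ∨ τ = σ₀ ∨ τ = (starRingEnd ℂ).comp σ₀ := by
  classical
  by_contra hcon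
  push Not at hcon
  obtain ⟨⟨y, hy⟩, h1, h2⟩ := hcon
  obtain ⟨x, hx⟩ := hσ
  have hne : ∀ (ν : k →+* ℂ) (z : k), (ν z).im ≠ 0 → ν ≠ (starRingEnd ℂ).comp ν := by
    intro ν z hz h
    have h3 := RingHom.congr_fun h z
    exact hz (Complex.conj_eq_iff_im.1 h3.symm)
  have hcc : ∀ ν : k →+* ℂ, (starRingEnd ℂ).comp ((starRingEnd ℂ).comp ν) = ν := by
    intro ν
    ext z
    simp
  have h3 : (starRingEnd ℂ).comp τ ≠ σ₀ := fun h => h2 (by rw [← h, hcc])
  have h4 : (starRingEnd ℂ).comp τ ≠ (starRingEnd ℂ).comp σ₀ := fun h => h1 (by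
    rw [← hcc τ, h, hcc])
  have hcard : Fintype.card (k →+* ℂ) = 3 := by rw [NumberField.Embeddings.card, hk]
  have h5 : ({(starRingEnd ℂ).comp τ, τ, (starRingEnd ℂ).comp σ₀, σ₀} : Finset (k →+* ℂ)).card ≤ 3 := by
    rw [← hcard]
    exact Finset.card_le_univ _
  rw [Finset.card_insert_of_notMem, Finset.card_insert_of_notMem,
    Finset.card_pair (hne σ₀ x hx).symm] at h5
  · omega
  · simp only [Finset.mem_insert, Finset.mem_singleton, not_or]
    exact ⟨h2, h1⟩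
  · simp only [Finset.mem_insert, Finset.mem_singleton, not_or]
    exact ⟨(hne τ y hy).symm, h4, h3⟩

/-- the units with condition 1 and bounded `|u^ρ|_v` -/
theorem finite_bounded [IsGalois k H] (hk : Module.finrank ℚ k = 3) (σ : H →+* ℂ)
    (hσ : ∃ x : k, (σ (algebraMap k H x)).im ≠ 0) (B : ℝ) :
    {u : (𝓞 H)ˣ | UnitCircle k u ∧ ∀ ρ : H ≃ₐ[k] H, absV σ ρ u ≤ B}.Finite := by
  have hfin := NumberField.Embeddings.finite_of_norm_le H ℂ (max 1 (Real.sqrt B))
  refine Set.Finite.of_finite_image (f := fun u : (𝓞 H)ˣ => (u : H)) ?_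
    (fun a _ b _ h => NumberField.Units.coe_injective H h)
  refine hfin.subset ?_
  rintro _ ⟨u, ⟨hu1, hu2⟩, rfl⟩
  refine ⟨RingOfIntegers.isIntegral_coe _, fun τ => ?_⟩
  have hb : ∀ g : H ≃ₐ[k] H, ‖σ (g (u : H))‖ ≤ Real.sqrt B := fun g =>
    Real.le_sqrt_of_sq_le (hu2 g)
  rcases embeddings hk (σ₀ := σ.comp (algebraMap k H)) hσ (τ.comp (algebraMap k H)) with h | h | h
  · exact (hu1 τ h).le.trans (le_max_left _ _)
  · obtain ⟨g, hg⟩ := ComplexEmbedding.exists_comp_symm_eq_of_comp_eq (k := k) σ τ h.symm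
    rw [← hg]
    exact (hb g.symm).trans (le_max_right _ _)
  · have h' : σ.comp (algebraMap k H) = ((starRingEnd ℂ).comp τ).comp (algebraMap k H) := by
      rw [RingHom.comp_assoc, h, ← RingHom.comp_assoc]
      ext x
      simp
    obtain ⟨g, hg⟩ := ComplexEmbedding.exists_comp_symm_eq_of_comp_eq (k := k) σ _ h'
    have h2 : ‖τ (u : H)‖ = ‖σ (g.symm (u : H))‖ := by
      have h3 : ((starRingEnd ℂ).comp τ) (u : H) = σ (g.symm (u : H)) := by
        rw [← hg]
        rfl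
      rw [← h3]
      simp
    rw [h2]
    exact (hb g.symm).trans (le_max_right _ _)

end

theorem result {k H : Type} [Field k] [NumberField k] [Field H] [NumberField H] [Algebra k H]
    [IsGalois k H] [Fintype (H ≃ₐ[k] H)]
    -- `k` is a complex cubic field, `σ` an embedding of `H` above the complex place
    (hk : Module.finrank ℚ k = 3) (σ : H →+* ℂ) (hσ : ∃ x : k, (σ (algebraMap k H x)).im ≠ 0)
    -- the ideal `f`, the Artin symbol, the partial zeta functions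
    (f : Ideal (𝓞 k)) (art : Ideal (𝓞 k) → (H ≃ₐ[k] H)) (ζ : (H ≃ₐ[k] H) → ℂ → ℂ)
    (hd : ∀ ρ, DifferentiableOn ℂ (ζ ρ) {1}ᶜ)
    (hζ : ∀ ρ, ∀ s : ℂ, 1 < s.re → LSeriesHasSum (fun n => (cnt f art ρ n : ℂ)) s (ζ ρ s))
    -- they have the same residue at `1`, and the sum of their derivatives at `0` is zero
    (κ : ℂ) (hres : ∀ ρ, Tendsto (fun s : ℂ => (s - 1) * ζ ρ s) (𝓝[≠] 1) (𝓝 κ))
    (h0 : ∑ ρ, deriv (ζ ρ) 0 = 0)
    (e : ℕ) (he : 0 < e) {γ : ℝ} (hγ : Real.pi / 2 < γ) :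
    (∀ ρ, (∀ T : ℝ, 0 < T → Summable fun n => ‖term f art e γ T ρ n‖) ∧
      (fun T : ℝ => product f art e γ T ρ - Complex.exp (-(e * deriv (ζ ρ) 0))) =O[atTop]
        (fun T : ℝ => 1 / T)) ∧
    (∀ (t : ℕ → ℝ) (u : ℕ → (𝓞 H)ˣ), Tendsto t atTop atTop → (∀ i, Candidate k e (u i)) →
      (∀ ρ, Tendsto (fun i => product f art e γ (t i) ρ - (absV σ ρ (u i) : ℂ)) atTop (𝓝 0)) →
      ∀ᶠ i in atTop, IsStark σ e ζ (u i)) ∧
    List.TFAE [
      ∃ u : (𝓞 H)ˣ, IsStark σ e ζ u,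
      ∃ u : (𝓞 H)ˣ, Candidate k e u ∧ ∀ ρ, (fun T : ℝ => product f art e γ T ρ - (absV σ ρ u : ℂ))
        =O[atTop] (fun T : ℝ => 1 / T),
      ∃ (t : ℕ → ℝ) (u : ℕ → (𝓞 H)ˣ), Tendsto t atTop atTop ∧ (∀ i, Candidate k e (u i)) ∧
        ∀ ρ, Tendsto (fun i => product f art e γ (t i) ρ - (absV σ ρ (u i) : ℂ)) atTop (𝓝 0)] := by
  classical
  have hN : (Fintype.card (H ≃ₐ[k] H) : ℂ) ≠ 0 := by exact_mod_cast Fintype.card_ne_zero
  have hec : (e : ℂ) ≠ 0 := by exact_mod_cast he.ne'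
  have her : (e : ℝ) ≠ 0 := by exact_mod_cast he.ne'
  -- the entire functions
  set F : (H ≃ₐ[k] H) → ℂ → ℂ := fun ρ s =>
    e * (ζ ρ s - 1 / Fintype.card (H ≃ₐ[k] H) * ∑ ρ', ζ ρ' s) with hF
  have hFd : ∀ ρ, DifferentiableOn ℂ (F ρ) {1}ᶜ := by
    intro ρ
    exact (((hd ρ).sub ((DifferentiableOn.fun_sum fun ρ' _ => hd ρ').const_mul _))).const_mul _
  set Z : (H ≃ₐ[k] H) → ℂ → ℂ := fun ρ => Function.update (F ρ) 1 (limUnder (𝓝[≠] 1) (F ρ)) with hZdef
  have hZd : ∀ ρ, Differentiable ℂ (Z ρ) := by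
    intro ρ
    rw [← differentiableOn_univ]
    refine Complex.differentiableOn_update_limUnder_of_isLittleO univ_mem ?_ ?_
    · have : (Set.univ : Set ℂ) \ {1} = {1}ᶜ := by
        ext z
        simp
      rw [this]
      exact hFd ρ
    · have h1 : Tendsto (fun s : ℂ => (s - 1) * F ρ s) (𝓝[≠] 1) (𝓝 0) := by
        have h2 : Tendsto (fun s : ℂ => (e : ℂ) * ((s - 1) * ζ ρ s - 1 / Fintype.card (H ≃ₐ[k] H) *
            ∑ ρ', (s - 1) * ζ ρ' s)) (𝓝[≠] 1)
            (𝓝 ((e : ℂ) * (κ - 1 / Fintype.card (H ≃ₐ[k] H) * ∑ _ρ' : H ≃ₐ[k] H, κ))) :=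
          ((hres ρ).sub ((tendsto_finsetSum _ fun ρ' _ => hres ρ').const_mul _)).const_mul _
        have h3 : (e : ℂ) * (κ - 1 / Fintype.card (H ≃ₐ[k] H) * ∑ _ρ' : H ≃ₐ[k] H, κ) = 0 := by
          rw [Finset.sum_const, Finset.card_univ, nsmul_eq_mul]
          field_simp
          ring
        rw [h3] at h2
        refine h2.congr fun s => ?_
        simp only [hF, ← Finset.mul_sum]
        ring
      have h4 : Tendsto (fun s : ℂ => (s - 1) * F ρ 1) (𝓝[≠] 1) (𝓝 0) := by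
        have h5 : Tendsto (fun s : ℂ => (s - 1) * F ρ 1) (𝓝 1) (𝓝 ((1 - 1) * F ρ 1)) :=
          ((tendsto_id.sub_const 1).mul_const _)
        rw [sub_self, zero_mul] at h5
        exact h5.mono_left nhdsWithin_le_nhds
      rw [isLittleO_iff_tendsto']
      · have h6 := h1.sub h4
        rw [sub_zero] at h6
        refine h6.congr fun s => ?_
        rw [div_inv_eq_mul]
        ring
      · filter_upwards [self_mem_nhdsWithin] with s hs h
        exact absurd h (inv_ne_zero (sub_ne_zero.2 hs))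
  have hZF : ∀ ρ, ∀ s : ℂ, s ≠ 1 → Z ρ s = F ρ s := fun ρ s hs => Function.update_of_ne hs _ _
  have hL : ∀ ρ, ∀ s : ℂ, 1 < s.re → LSeriesHasSum (fun n => (e : ℂ) * coeff f art ρ n) s (Z ρ s) := by
    intro ρ s hs
    have hs1 : s ≠ 1 := by
      rintro rfl
      simp at hs
    rw [hZF ρ s hs1]
    have h1 := LSeriesHasSum.sum (S := (Finset.univ : Finset (H ≃ₐ[k] H))) (s := s)
      (f := fun ρ' n => (cnt f art ρ' n : ℂ)) (a := fun ρ' => ζ ρ' s) (fun ρ' _ => hζ ρ' s hs)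
    have h2 := ((hζ ρ s hs).sub (h1.smul (1 / Fintype.card (H ≃ₐ[k] H) : ℂ))).smul (e : ℂ)
    refine (LSeriesHasSum_congr s _ fun {n} _ => ?_).1 h2
    simp [coeff, Finset.sum_apply]
  have hZ0 : ∀ ρ, deriv (Z ρ) 0 = e * deriv (ζ ρ) 0 := by
    intro ρ
    have hda : ∀ ρ', DifferentiableAt ℂ (ζ ρ') 0 := fun ρ' =>
      (hd ρ').differentiableAt (isOpen_compl_singleton.mem_nhds (by norm_num))
    have h1 : Z ρ =ᶠ[𝓝 0] F ρ := by
      filter_upwards [isOpen_compl_singleton.mem_nhds (show (0 : ℂ) ∈ ({1}ᶜ : Set ℂ) by norm_num)] with s hs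
      exact hZF ρ s hs
    rw [h1.deriv_eq]
    have h2 : HasDerivAt (F ρ) (e * (deriv (ζ ρ) 0 - 1 / Fintype.card (H ≃ₐ[k] H) *
        ∑ ρ', deriv (ζ ρ') 0)) 0 :=
      (((hda ρ).hasDerivAt.sub ((HasDerivAt.fun_sum fun ρ' _ => (hda ρ').hasDerivAt).const_mul _))).const_mul _
    rw [h2.deriv, h0, mul_zero, sub_zero]
  have hreal : ∀ ρ, (deriv (ζ ρ) 0).im = 0 := by
    intro ρ
    have h1 := deriv_real (c := fun n => (e : ℂ) * coeff f art ρ n) (fun n => by
      simp [coeff, map_sum, map_sub, map_mul]) (hZd ρ) (hL ρ)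
    rw [hZ0 ρ] at h1
    have h2 : ((e : ℂ) * deriv (ζ ρ) 0).im = e * (deriv (ζ ρ) 0).im := by
      simp [Complex.mul_im]
    rw [h2] at h1
    exact (mul_eq_zero.1 h1).resolve_left her
  have hre : ∀ ρ, deriv (ζ ρ) 0 = ((deriv (ζ ρ) 0).re : ℂ) := by
    intro ρ
    apply Complex.ext
    · simp
    · simpa using hreal ρ
  have hrate : ∀ ρ, (fun T : ℝ => product f art e γ T ρ - Complex.exp (-(e * deriv (ζ ρ) 0))) =O[atTop]
      (fun T : ℝ => 1 / T) := by
    intro ρ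
    have h1 := rate0 (hZd ρ) (hL ρ) hγ
    rw [hZ0 ρ] at h1
    exact h1
  have hexp : ∀ ρ, Complex.exp (-(e * deriv (ζ ρ) 0)) =
      ((Real.exp (-(e * (deriv (ζ ρ) 0).re)) : ℝ) : ℂ) := by
    intro ρ
    rw [Complex.ofReal_exp]
    congr 1
    conv_lhs => rw [hre ρ]
    push_cast
    ring
  have hlim : ∀ ρ, Tendsto (fun T : ℝ => product f art e γ T ρ) atTop
      (𝓝 ((Real.exp (-(e * (deriv (ζ ρ) 0).re)) : ℝ) : ℂ)) := fun ρ => by
    have := tendsto_of_rate (hrate ρ)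
    rwa [hexp ρ] at this
  have hmain : ∀ (t : ℕ → ℝ) (u : ℕ → (𝓞 H)ˣ), Tendsto t atTop atTop → (∀ i, Candidate k e (u i)) →
      (∀ ρ, Tendsto (fun i => product f art e γ (t i) ρ - (absV σ ρ (u i) : ℂ)) atTop (𝓝 0)) →
      ∀ᶠ i in atTop, IsStark σ e ζ (u i) := by
    intro t u ht hu h
    have hconv : ∀ ρ, Tendsto (fun i => absV σ ρ (u i)) atTop
        (𝓝 (Real.exp (-(e * (deriv (ζ ρ) 0).re)))) := by
      intro ρ
      have h1 := ((hlim ρ).comp ht).sub (h ρ)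
      rw [sub_zero] at h1
      have h2 : Tendsto (fun i => ((absV σ ρ (u i) : ℝ) : ℂ)) atTop
          (𝓝 ((Real.exp (-(e * (deriv (ζ ρ) 0).re)) : ℝ) : ℂ)) := by
        refine h1.congr fun i => ?_
        simp
      have h3 := (Complex.continuous_re.tendsto _).comp h2
      rw [Complex.ofReal_re] at h3
      exact h3
    obtain ⟨B, hB⟩ : ∃ B : ℝ, ∀ ρ : H ≃ₐ[k] H, Real.exp (-(e * (deriv (ζ ρ) 0).re)) < B := by
      obtain ⟨B, hB⟩ := (Set.finite_range fun ρ : H ≃ₐ[k] H =>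
        Real.exp (-(e * (deriv (ζ ρ) 0).re))).bddAbove
      exact ⟨B + 1, fun ρ => lt_of_le_of_lt (hB ⟨ρ, rfl⟩) (lt_add_one B)⟩
    have hbd : ∀ᶠ i in atTop, ∀ ρ : H ≃ₐ[k] H, absV σ ρ (u i) < B :=
      Filter.eventually_all.2 fun ρ => (hconv ρ).eventually_lt_const (hB ρ)
    set M := {u : (𝓞 H)ˣ | UnitCircle k u ∧ ∀ ρ : H ≃ₐ[k] H, absV σ ρ u ≤ B} with hM
    have hMfin : M.Finite := finite_bounded hk σ hσ B
    have hev : ∀ ρ, ∀ᶠ i in atTop, absV σ ρ (u i) = Real.exp (-(e * (deriv (ζ ρ) 0).re)) := by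
      intro ρ
      have hC : ((fun x : (𝓞 H)ˣ => absV σ ρ x) '' M \ {Real.exp (-(e * (deriv (ζ ρ) 0).re))}).Finite :=
        (hMfin.image _).subset Set.sdiff_subset
      have hopen := hC.isClosed.isOpen_compl.mem_nhds
        (show Real.exp (-(e * (deriv (ζ ρ) 0).re)) ∈ _ from fun h' => h'.2 rfl)
      filter_upwards [hbd, hconv ρ hopen] with i h1 h2
      by_contra hne
      exact h2 ⟨⟨_, ⟨(hu i).1, fun ρ' => (h1 ρ').le⟩, rfl⟩, hne⟩
    filter_upwards [Filter.eventually_all.2 hev] with i hi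
    refine ⟨fun ρ => ?_, hu i⟩
    rw [hi ρ, Real.log_exp]
    conv_lhs => rw [hre ρ]
    congr 1
    field_simp
  refine ⟨fun ρ => ⟨fun T hT => summable_w (hZd ρ) (hL ρ) γ hT, hrate ρ⟩, hmain, ?_⟩
  tfae_have 1 → 2 := by
    rintro ⟨u, hu, hc⟩
    refine ⟨u, hc, fun ρ => ?_⟩
    have h1 := hrate ρ
    have h2 : Complex.exp (-(e * deriv (ζ ρ) 0)) = (absV σ ρ u : ℂ) := by
      rw [hu ρ]
      have h3 : -((e : ℂ) * ((-(1 / e) * Real.log (absV σ ρ u) : ℝ) : ℂ)) =
          ((Real.log (absV σ ρ u) : ℝ) : ℂ) := by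
        push_cast
        field_simp
      rw [h3, ← Complex.ofReal_exp, Real.exp_log (absV_pos σ ρ u)]
    rwa [h2] at h1
  tfae_have 2 → 3 := by
    rintro ⟨u, hc, h⟩
    refine ⟨fun n => n, fun _ => u, tendsto_natCast_atTop_atTop, fun _ => hc, fun ρ => ?_⟩
    have h1 := (h ρ).trans_tendsto (tendsto_const_nhds.div_atTop tendsto_id)
    exact h1.comp tendsto_natCast_atTop_atTop
  tfae_have 3 → 1 := by
    rintro ⟨t, u, ht, hu, h⟩
    obtain ⟨i, hi⟩ := (hmain t u ht hu h).exists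
    exact ⟨u i, hi⟩
  tfae_finish

end Pool.Agent.Results.MP_d9f52e_nt.RegularizedNormProducts
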